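import Pool.Agent.H.MP_5090e2_pr.B

set_option autoImplicit false

namespace Pool.Agent.Results.MP_5090e2_pr.Yes

open Set Filter Topology MeasureTheory ProbabilityTheory
open scoped NNReal

/-- nonincreasing functions with values in the unit interval -/
def A : Type := {f : ℝ≥0 → ℝ // Antitone f ∧ ∀ t, f t ∈ Icc 0 1}

/-- agreement at common continuity points -/
def R (f g : A) : Prop := ∀ t, ContinuousAt f.1 t → ContinuousAt g.1 t → f.1 t = g.1 t

/-- the space of profiles -/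
def M : Type := Quot R

/-- convergence at continuity points of the limit -/
def Conv (u : ℕ → A) (f : A) : Prop := ∀ t, ContinuousAt f.1 t → Tendsto (fun n => (u n).1 t) atTop (𝓝 (f.1 t))

instance top : TopologicalSpace M :=
  .generateFrom {s | ∀ u f, Conv u f → Quot.mk R f ∈ s → ∀ᶠ n in atTop, Quot.mk R (u n) ∈ s}

instance mes : MeasurableSpace M := borel M

instance bor : BorelSpace M := ⟨rfl⟩

/-- total variation distance -/
noncomputable def tv {E : Type} [MeasurableSpace E] (μ ν : Measure E) : ℝ :=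
  sSup {r | ∃ s, MeasurableSet s ∧ r = |μ.real s - ν.real s|}

/-- Markov property at a time -/
def Mp {E : Type} [MeasurableSpace E] (P : Kernel E (ℝ≥0 → E)) (x : E) (t : ℝ≥0) : Prop :=
  ∀ (a : Set (Iic t → E)) (b : Set (ℝ≥0 → E)), MeasurableSet a → MeasurableSet b →
    P x {ω | (Iic t).domRestrict ω ∈ a ∧ (fun s => ω (t + s)) ∈ b} =
      ∫⁻ ω in {ω | (Iic t).domRestrict ω ∈ a}, P (ω t) b ∂P x

/-- Markov family with stationary law -/
def Mk {E : Type} [MeasurableSpace E] (P : Kernel E (ℝ≥0 → E)) (π : Measure E) : Prop :=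
  IsMarkovKernel P ∧ (∀ x, (P x).map (· 0) = .dirac x) ∧ (∀ x t, Mp P x t) ∧ ∀ t, (P ∘ₘ π).map (· t) = π

/-- the profile -/
def Prof {E : Type} [MeasurableSpace E] (P : Kernel E (ℝ≥0 → E)) (π : Measure E) (F : E → M) : Prop :=
  ∀ x, ∃ f : A, Quot.mk R f = F x ∧ ∀ t, f.1 t = tv ((P x).map (· t)) π

theorem result (Ω : ℕ → Type) [∀ n, MeasurableSpace (Ω n)] (P : ∀ n, Kernel (Ω n) (ℝ≥0 → Ω n))
    (π : ∀ n, ProbabilityMeasure (Ω n)) (h : ∀ n, Mk (P n) (π n)) (F : ∀ n, Ω n → M) (mF : ∀ n, Measurable (F n))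
    (hF : ∀ n, Prof (P n) (π n) (F n)) (φ : ℕ → ℕ) (ν : ProbabilityMeasure M)
    (hν : Tendsto (fun n => (π (φ n)).map (mF (φ n)).aemeasurable) atTop (𝓝 ν)) :
    ∃ (E : Type) (_ : MeasurableSpace E) (Q : Kernel E (ℝ≥0 → E)) (ρ : ProbabilityMeasure E) (G : E → M)
      (mG : Measurable G), Mk Q ρ ∧ Prof Q ρ G ∧ ρ.map mG.aemeasurable = ν :=
  Pool.Agent.H.MP_5090e2_pr.main (Ω := fun n => Ω (φ n)) (fun n => P (φ n)) (fun n => π (φ n)) (fun n => h (φ n))
    (fun n => F (φ n)) (fun n => mF (φ n)) (fun n => hF (φ n)) ν hν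

end Pool.Agent.Results.MP_5090e2_pr.Yes
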